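import Pool.Agent.Helper51.BW.Spec

/-!
# BW, part GEO1: numerical conditions on `t0`
-/

set_option autoImplicit false

namespace Pool.Agent.Helper54.BW.GEO1

open Pool.Agent.Helper51.BW

/-- large `r` -/
theorem large (c : ℝ) (hc : 0 < c) : ∃ r0 : ℕ, 2 ≤ r0 ∧ ∀ r : ℕ, r0 ≤ r →
    (2 : ℝ) ≤ r ∧ 3 * (r : ℝ) ^ 15 ≤ c * (r : ℝ) ^ 20 := by
  refine ⟨max 2 ⌈3 / c⌉₊, le_max_left _ _, fun r hr => ?_⟩
  have h2 : (2 : ℝ) ≤ r := by exact_mod_cast (le_max_left _ _).trans hr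
  have h3 : 3 / c ≤ r := (Nat.le_ceil _).trans (by exact_mod_cast (le_max_right _ _).trans hr)
  refine ⟨h2, ?_⟩
  rw [div_le_iff₀ hc] at h3
  have h1 : (1 : ℝ) ≤ (r : ℝ) ^ 4 := one_le_pow₀ (by linarith)
  have h15 : (0 : ℝ) ≤ (r : ℝ) ^ 15 := by positivity
  have e : c * (r : ℝ) ^ 20 = (r : ℝ) ^ 15 * (((r : ℝ) * c) * (r : ℝ) ^ 4) := by ring
  rw [e]
  have h4 : 3 * 1 ≤ ((r : ℝ) * c) * (r : ℝ) ^ 4 := mul_le_mul h3 h1 zero_le_one (by positivity)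
  nlinarith

theorem main : S_GEO1 := by
  intro g gB c1 D hg hg1 hgB hgB1 hc1 hD
  obtain ⟨r0, hr02, hr0⟩ := large (gB * c1) (by positivity)
  refine ⟨r0, fun r hr k hk1 hk2 => ?_⟩
  obtain ⟨h2, h3⟩ := hr0 r hr
  have hr1 : (1 : ℝ) ≤ r := by linarith
  have h15 : (r : ℝ) ≤ (r : ℝ) ^ 15 := le_self_pow₀ hr1 (by norm_num)
  have h20 : (r : ℝ) ≤ (r : ℝ) ^ 20 := le_self_pow₀ hr1 (by norm_num)
  have h15' : (0 : ℝ) ≤ (r : ℝ) ^ 15 := by positivity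
  have h20' : (0 : ℝ) < (r : ℝ) ^ 20 := by positivity
  have hgk : gB * c1 * (r : ℝ) ^ 20 ≤ gB * k := by nlinarith
  have hgk2 : gB * k ≤ gB * (D * (r : ℝ) ^ 20) := mul_le_mul_of_nonneg_left hk2 hgB.le
  have hnum : (r : ℝ) ≤ gB * k - 3 / 2 * (r : ℝ) ^ 15 := by linarith
  have hnum0 : 0 ≤ gB * k - 3 / 2 * (r : ℝ) ^ 15 := by linarith
  have hq : (r : ℝ) ≤ (gB * k - 3 / 2 * (r : ℝ) ^ 15) / g := by
    rw [le_div_iff₀ hg]
    nlinarith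
  have hfl : (t0f g gB r k : ℝ) ≤ (gB * k - 3 / 2 * (r : ℝ) ^ 15) / g :=
    Nat.floor_le (div_nonneg hnum0 hg.le)
  have hfl2 : (t0f g gB r k : ℝ) ≤ gB * (D * (r : ℝ) ^ 20) / g :=
    hfl.trans (div_le_div_of_nonneg_right (by linarith) hg.le)
  have hMM : MM g gB D * (r : ℝ) ^ 20 =
      2 * (gB * (D * (r : ℝ) ^ 20) / g) + 4 * ((r : ℝ) ^ 20 / g) := by
    rw [MM]; field_simp; ring
  have hpos : 0 ≤ gB * (D * (r : ℝ) ^ 20) / g := by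
    have : 0 < D := hc1.trans hD
    positivity
  have hrg : (r : ℝ) ≤ (r : ℝ) ^ 20 / g := by
    rw [le_div_iff₀ hg]
    nlinarith
  refine ⟨Nat.le_floor hq, ?_, ?_⟩
  · apply Nat.le_floor
    push_cast
    rw [hMM]
    linarith
  · rw [add_mul, hMM]
    have : (0 : ℝ) ≤ (r : ℝ) ^ 20 / g := by positivity
    linarith

end Pool.Agent.Helper54.BW.GEO1
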