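import Pool.Agent.Helper54.BW.Geo

/-!
# BW, part GEO3
-/

namespace Pool.Agent.Helper54.BW.GEO3

open Pool.Agent.Helper51.BW

theorem main : S_GEO3 := Geo.geo3

end Pool.Agent.Helper54.BW.GEO3
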