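import Pool.Agent.Helper54.BW.GEO1

/-!
# BW, parts GEO2, GEO3, GEO4: geometry of the three strands
-/

set_option autoImplicit false

namespace Pool.Agent.Helper54.BW.Geo

open Pool.Agent.Helper51.BW

variable {d : ℕ}

theorem ip_add (a : Fin d → ℝ) (x y : V d) : ip a (x + y) = ip a x + ip a y := by
  simp [ip, mul_add, Finset.sum_add_distrib]

theorem ip_neg (a : Fin d → ℝ) (x : V d) : ip a (-x) = -ip a x := by
  simp [ip]

theorem ip_sub (a : Fin d → ℝ) (x y : V d) : ip a (x - y) = ip a x - ip a y := by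
  rw [sub_eq_add_neg, ip_add, ip_neg, sub_eq_add_neg]

theorem ip_zero (a : Fin d → ℝ) : ip a (0 : V d) = 0 := by simp [ip]

theorem ip_map_sum (a : Fin d → ℝ) (l : List (D d)) :
    ip a ((l.map dir).sum) = (l.map (fn a)).sum := by
  induction l with
  | nil => simp [ip_zero]
  | cons e l ih => rw [List.map_cons, List.sum_cons, ip_add, ih, List.map_cons, List.sum_cons]; rfl

theorem ip_pos (a : Fin d → ℝ) (l : List (D d)) (t : ℕ) : ip a (pos l t) = wk (fn a) l t :=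
  ip_map_sum a _

theorem wk_zero {α : Type} (f : α → ℝ) (l : List α) : wk f l 0 = 0 := by simp [wk]

section points

variable {S : ℕ → V d} {j k m : ℕ} {lA lB lC : List (Pool.Agent.Helper51.BW.D d)}

theorem ptB (h : Rel3 S j k m lA lB lC) (a : Fin d → ℝ) {t : ℕ} (ht : t ≤ k) :
    ip a (S (j + k - t) - S (j + k)) = -wk (fn a) lB t := by
  rw [h.2.1 t ht, ip_sub, ip_sub, ip_pos]; ring

theorem ptC (h : Rel3 S j k m lA lB lC) (a : Fin d → ℝ) {t : ℕ} (ht : t ≤ m) :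
    ip a (S (j + k + t) - S (j + k)) = wk (fn a) lC t := by
  rw [h.2.2 t ht, ip_sub, ip_add, ip_pos]; ring

theorem ptA (h : Rel3 S j k m lA lB lC) (a : Fin d → ℝ) {t : ℕ} (ht : t ≤ j) :
    ip a (S (j - t) - S (j + k)) = -wk (fn a) lB k - wk (fn a) lA t := by
  have h1 := ptB h a (le_refl k)
  rw [Nat.add_sub_cancel] at h1
  rw [h.1 t ht]
  have : ip a (S j - pos lA t - S (j + k)) = ip a (S j - S (j + k)) - wk (fn a) lA t := by
    rw [ip_sub, ip_sub, ip_sub, ip_pos]; ring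
  rw [this, h1]

end points

/-- numbers: `MM` -/
theorem MM_mul (g gB D : ℝ) (hg : 0 < g) (R : ℝ) : g / 2 * (MM g gB D * R) = (gB * D + 2) * R := by
  rw [MM]; field_simp

/-- late times -/
theorem late {g gB D : ℝ} (hg : 0 < g) {r t : ℕ} (ht : ⌊MM g gB D * (r : ℝ) ^ 20⌋₊ < t) :
    (gB * D + 2) * (r : ℝ) ^ 20 ≤ g / 2 * t := by
  rw [← MM_mul g gB D hg]
  have h := (Nat.lt_of_floor_lt ht).le
  exact mul_le_mul_of_nonneg_left h (by positivity)

/-- powers of `r` -/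
theorem pows {r : ℕ} (h2 : (2 : ℝ) ≤ r) : 8 * (r : ℝ) ^ 12 ≤ (r : ℝ) ^ 15 ∧
    32 * (r : ℝ) ^ 15 ≤ (r : ℝ) ^ 20 ∧ 1 ≤ (r : ℝ) ^ 12 ∧ 1 ≤ (r : ℝ) ^ 10 := by
  have h8 : (8 : ℝ) ≤ (r : ℝ) ^ 3 := by
    calc (8 : ℝ) = 2 ^ 3 := by norm_num
      _ ≤ _ := pow_le_pow_left₀ (by norm_num) h2 3
  have h32 : (32 : ℝ) ≤ (r : ℝ) ^ 5 := by
    calc (32 : ℝ) = 2 ^ 5 := by norm_num
      _ ≤ _ := pow_le_pow_left₀ (by norm_num) h2 5
  have h12 : (0 : ℝ) ≤ (r : ℝ) ^ 12 := by positivity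
  have h15 : (0 : ℝ) ≤ (r : ℝ) ^ 15 := by positivity
  refine ⟨?_, ?_, one_le_pow₀ (by linarith), one_le_pow₀ (by linarith)⟩
  · calc 8 * (r : ℝ) ^ 12 ≤ (r : ℝ) ^ 3 * (r : ℝ) ^ 12 := mul_le_mul_of_nonneg_right h8 h12
      _ = _ := by ring
  · calc 32 * (r : ℝ) ^ 15 ≤ (r : ℝ) ^ 5 * (r : ℝ) ^ 15 := mul_le_mul_of_nonneg_right h32 h15
      _ = _ := by ring

section levels

variable {S : ℕ → V d} {j k m r t0 TT : ℕ} {lA lB lC : List (Pool.Agent.Helper51.BW.D d)}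
  {n u : Fin d → ℝ} {g gB C2 D : ℝ}

theorem rB (h : Rel3 S j k m lA lB lC) (hB : EvB n u gB C2 r k lB) {t : ℕ} (ht : t ≤ k) :
    gB * t - (r : ℝ) ^ 12 ≤ ip u (S (j + k - t) - S (j + k)) ∧
      ip u (S (j + k - t) - S (j + k)) ≤ gB * t + (r : ℝ) ^ 12 := by
  rw [ptB h u ht]
  have := abs_le.1 (hB.2.2.2.1 t ht)
  constructor <;> linarith [this.1, this.2]

theorem nB (h : Rel3 S j k m lA lB lC) (hB : EvB n u gB C2 r k lB) {t : ℕ} (ht : t ≤ k) :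
    ip n (S (j + k - t) - S (j + k)) ≤ 0 := by
  rw [ptB h n ht]
  rcases Nat.eq_zero_or_pos t with h0 | h0
  · subst h0; simp [wk_zero]
  · linarith [hB.1 t h0 ht]

theorem wA_nonneg (hA : EvA n u g r t0 TT j lA) {t : ℕ} (ht : t ≤ j) : 0 ≤ wk (fn u) lA t := by
  rcases Nat.eq_zero_or_pos t with h0 | h0
  · subst h0; simp [wk_zero]
  · exact (hA.2.2.2.2.1 t h0 ht).le

theorem rA (h : Rel3 S j k m lA lB lC) (hB : EvB n u gB C2 r k lB) (hA : EvA n u g r t0 TT j lA)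
    {t : ℕ} (ht : t ≤ j) :
    ip u (S (j - t) - S (j + k)) ≤ gB * k + (r : ℝ) ^ 12 := by
  rw [ptA h u ht]
  have := abs_le.1 (hB.2.2.2.1 k le_rfl)
  have h2 := wA_nonneg hA ht
  linarith [this.1]

theorem nA (h : Rel3 S j k m lA lB lC) (hB : EvB n u gB C2 r k lB) (hA : EvA n u g r t0 TT j lA)
    {t : ℕ} (ht : t ≤ j) (ht' : t ≤ TT) :
    ip n (S (j - t) - S (j + k)) < -((r : ℝ) ^ 10 / 2) := by
  rw [ptA h n ht]
  have h1 := hB.2.1
  have h2 := hA.1 t ht'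
  linarith

theorem rA_late (hg : 0 < g) (hgB : 0 < gB) (h : Rel3 S j k m lA lB lC)
    (hk : (k : ℝ) ≤ D * (r : ℝ) ^ 20) (hB : EvB n u gB C2 r k lB)
    (hA : EvA n u g r t0 ⌊MM g gB D * (r : ℝ) ^ 20⌋₊ j lA)
    {t : ℕ} (ht : t ≤ j) (ht' : ⌊MM g gB D * (r : ℝ) ^ 20⌋₊ < t) :
    ip u (S (j - t) - S (j + k)) ≤ 2 * (r : ℝ) ^ 12 - 2 * (r : ℝ) ^ 20 := by
  rw [ptA h u ht]
  have h1 := abs_le.1 (hB.2.2.2.1 k le_rfl)
  have h2 := hA.2.2.2.1 t ht
  have h3 := late hg ht'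
  have h4 : gB * k ≤ gB * (D * (r : ℝ) ^ 20) := mul_le_mul_of_nonneg_left hk hgB.le
  nlinarith [h1.1]

theorem rC (hC : EvC n u g r TT m lC) (hg : 0 < g) (h : Rel3 S j k m lA lB lC) {t : ℕ}
    (ht : t ≤ m) : -((r : ℝ) ^ 12) ≤ ip u (S (j + k + t) - S (j + k)) := by
  rw [ptC h u ht]
  have h1 := hC.2 t ht
  have h2 : 0 ≤ g / 2 * t := by positivity
  linarith

theorem rC_late (hC : EvC n u g r TT m lC) (hg : 0 < g) (h : Rel3 S j k m lA lB lC) {t : ℕ}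
    (ht : t ≤ m) (ht' : ⌊MM g gB D * (r : ℝ) ^ 20⌋₊ < t) :
    (gB * D + 2) * (r : ℝ) ^ 20 - (r : ℝ) ^ 12 ≤ ip u (S (j + k + t) - S (j + k)) := by
  rw [ptC h u ht]
  have h1 := hC.2 t ht
  have h3 := late hg ht'
  linarith

theorem nC (hC : EvC n u g r TT m lC) (h : Rel3 S j k m lA lB lC) {t : ℕ}
    (ht : t ≤ m) (ht1 : 1 ≤ t) (ht' : t ≤ TT) : 0 < ip n (S (j + k + t) - S (j + k)) := by
  rw [ptC h n ht]
  exact hC.1 t ht1 ht'

end levels

/-- the time `s ≤ j + k` is a time of the strand `A` or of the strand `B` -/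
theorem split {j k s : ℕ} (hs : s ≤ j + k) :
    (∃ t ≤ j, s = j - t) ∨ (∃ t ≤ k, s = j + k - t) := by
  rcases le_total s j with h | h
  · exact Or.inl ⟨j - s, by omega, by omega⟩
  · exact Or.inr ⟨j + k - s, by omega, by omega⟩

theorem geo2 : S_GEO2 := by
  intro d n u g gB c1 D _ hg hg1 hgB hgB1 hc1 hD
  refine ⟨2, fun r hr k hk1 hk2 j m hj hm S lA lB lC hS hA hB hC s t hs ht htm heq => ?_⟩
  have h2 : (2 : ℝ) ≤ r := by exact_mod_cast hr
  obtain ⟨p1, p2, p3, p4⟩ := pows h2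
  obtain ⟨t'', rfl⟩ : ∃ t'', t = j + k + t'' := ⟨t - (j + k), by omega⟩
  have ht1 : 1 ≤ t'' := by omega
  have htm' : t'' ≤ m := by omega
  have hu : ip u (S s - S (j + k)) = ip u (S (j + k + t'') - S (j + k)) := by rw [heq]
  have hn : ip n (S s - S (j + k)) = ip n (S (j + k + t'') - S (j + k)) := by rw [heq]
  have h4 : gB * k ≤ gB * (D * (r : ℝ) ^ 20) := mul_le_mul_of_nonneg_left hk2 hgB.le
  rcases split hs with ⟨t', ht', rfl⟩ | ⟨t', ht', rfl⟩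
  · by_cases hT : t' ≤ ⌊MM g gB D * (r : ℝ) ^ 20⌋₊
    · by_cases hT' : t'' ≤ ⌊MM g gB D * (r : ℝ) ^ 20⌋₊
      · have e1 := nA hS hB hA ht' hT
        have e2 := nC hC hS htm' ht1 hT'
        linarith
      · have e1 := rA hS hB hA ht'
        have e2 := rC_late hC hg hS htm' (not_le.1 hT')
        nlinarith
    · have e1 := rA_late hg hgB hS hk2 hB hA ht' (not_le.1 hT)
      have e2 := rC hC hg hS htm'
      nlinarith
  · by_cases hT' : t'' ≤ ⌊MM g gB D * (r : ℝ) ^ 20⌋₊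
    · have e1 := nB hS hB ht'
      have e2 := nC hC hS htm' ht1 hT'
      linarith
    · have e1 := (rB hS hB ht').2
      have e2 := rC_late hC hg hS htm' (not_le.1 hT')
      have e3 : gB * (t' : ℝ) ≤ gB * k :=
        mul_le_mul_of_nonneg_left (by exact_mod_cast ht') hgB.le
      nlinarith

theorem geo3 : S_GEO3 := by
  intro d n u g gB c1 D _ hg hg1 hgB hgB1 hc1 hD
  refine ⟨2, fun r hr k hk1 hk2 j m hj hm ht0 S lA lB lC hS hA hB hC hcut s t hs ht htm heq => ?_⟩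
  have h2 : (2 : ℝ) ≤ r := by exact_mod_cast hr
  obtain ⟨p1, p2, p3, p4⟩ := pows h2
  set t0 := t0f g gB r k with ht0def
  have ht0j : t0 ≤ j := ht0.trans hj
  obtain ⟨t', ht'j, ht't0, rfl⟩ : ∃ t', t' ≤ j ∧ t0 ≤ t' ∧ s = j - t' :=
    ⟨j - s, by omega, by omega, by omega⟩
  -- the walk `A` at time `t'` is right of its value at `t0`
  have hAt0 : wk (fn u) lA t0 ≤ wk (fn u) lA t' := by
    rcases Nat.lt_or_ge t0 t' with h | h
    · exact (hA.2.2.2.2.2.2 t' h ht'j).le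
    · have : t0 = t' := le_antisymm ht't0 h
      rw [this]
  rcases Nat.lt_or_ge (j + k) t with hjk | hjk
  · exact hcut _ _ (by omega) hjk htm heq
  rcases Nat.lt_or_ge t j with htj | htj
  · -- `A` against `A`
    obtain ⟨t'', ht''j, ht''t0, rfl⟩ : ∃ t'', t'' ≤ j ∧ t'' < t0 ∧ t = j - t'' :=
      ⟨j - t, by omega, by omega, by omega⟩
    have hu : ip u (S (j - t') - S (j + k)) = ip u (S (j - t'') - S (j + k)) := by rw [heq]
    rw [ptA hS u ht'j, ptA hS u ht''j] at hu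
    have := hA.2.2.2.2.2.1 t'' ht''t0
    linarith
  · -- `A` against `B`
    obtain ⟨t'', ht''k, rfl⟩ : ∃ t'', t'' ≤ k ∧ t = j + k - t'' :=
      ⟨j + k - t, by omega, by omega⟩
    have hu : ip u (S (j - t') - S (j + k)) = ip u (S (j + k - t'') - S (j + k)) := by rw [heq]
    have hn : ip n (S (j - t') - S (j + k)) = ip n (S (j + k - t'') - S (j + k)) := by rw [heq]
    have hB1 := (rB hS hB ht''k).1
    by_cases hlong : (t'' : ℝ) ≤ 4 / gB * (r : ℝ) ^ 15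
    · by_cases hT : t' ≤ ⌊MM g gB D * (r : ℝ) ^ 20⌋₊
      · have e1 := nA hS hB hA ht'j hT
        have e2 := (abs_le.1 (hB.2.2.2.2 t'' ht''k hlong)).2
        have e3 := ptB hS n ht''k
        linarith
      · have e1 := rA_late hg hgB hS hk2 hB hA ht'j (not_le.1 hT)
        have e4 : 0 ≤ gB * (t'' : ℝ) := by positivity
        linarith
    · have hlong' := not_le.1 hlong
      have e1 : 4 * (r : ℝ) ^ 15 ≤ gB * t'' := by
        have := mul_le_mul_of_nonneg_left hlong'.le hgB.le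
        have e : gB * (4 / gB * (r : ℝ) ^ 15) = 4 * (r : ℝ) ^ 15 := by field_simp
        linarith
      have e2 := (abs_le.1 (hB.2.2.2.1 k le_rfl)).1
      have e3 := (abs_le.1 (hA.2.2.1 t0 ht0)).1
      have e4 := ptA hS u ht'j
      have e5 : gB * k - 3 / 2 * (r : ℝ) ^ 15 - g ≤ g * t0 := by
        have := Nat.sub_one_lt_floor ((gB * k - 3 / 2 * (r : ℝ) ^ 15) / g)
        have h6 : (gB * k - 3 / 2 * (r : ℝ) ^ 15) / g - 1 ≤ (t0 : ℝ) := this.le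
        have h7 := mul_le_mul_of_nonneg_left h6 hg.le
        have e : g * ((gB * k - 3 / 2 * (r : ℝ) ^ 15) / g - 1) =
            gB * k - 3 / 2 * (r : ℝ) ^ 15 - g := by field_simp
        linarith
      linarith

theorem geo4 : S_GEO4 := by
  intro d n u g gB c1 D _ hg hg1 hgB hgB1 hc1 hD
  obtain ⟨r0, hr02, hr0⟩ := GEO1.large (gB * c1) (by positivity)
  refine ⟨r0, fun r hr k hk1 hk2 j m hj hm ht0 S lA lB lC hS hA hB => ?_⟩
  obtain ⟨h2, h3⟩ := hr0 r hr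
  obtain ⟨p1, p2, p3, p4⟩ := pows h2
  set t0 := t0f g gB r k with ht0def
  have ht0j : t0 ≤ j := ht0.trans hj
  have h15' : (0 : ℝ) ≤ (r : ℝ) ^ 15 := by positivity
  have hgk : gB * c1 * (r : ℝ) ^ 20 ≤ gB * k := by nlinarith
  have hnum0 : 0 ≤ gB * k - 3 / 2 * (r : ℝ) ^ 15 := by linarith
  have hfl : (t0 : ℝ) ≤ (gB * k - 3 / 2 * (r : ℝ) ^ 15) / g :=
    Nat.floor_le (div_nonneg hnum0 hg.le)
  rw [le_div_iff₀ hg] at hfl
  refine ⟨fun s hs heq => ?_, fun t ht1 ht2 => ?_, fun t ht1 ht2 i => ?_⟩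
  · obtain ⟨t', ht'j, ht'1, rfl⟩ : ∃ t', t' ≤ j ∧ 1 ≤ t' ∧ s = j - t' :=
      ⟨j - s, by omega, by omega, by omega⟩
    have e1 := ptA hS u ht'j
    have e2 := ptA hS u (Nat.zero_le j)
    rw [Nat.sub_zero, wk_zero] at e2
    rw [heq, e2] at e1
    have := hA.2.2.2.2.1 t' ht'1 ht'j
    linarith
  · obtain ⟨t', ht'j, ht't0, rfl⟩ : ∃ t', t' ≤ j ∧ t' ≤ t0 ∧ t = j - t' :=
      ⟨j - t, by omega, by omega, by omega⟩
    rw [ptA hS u ht'j]
    have e1 := (abs_le.1 (hB.2.2.2.1 k le_rfl)).2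
    have e2 := (abs_le.1 (hA.2.2.1 t0 ht0)).2
    have e3 : wk (fn u) lA t' ≤ wk (fn u) lA t0 := by
      rcases Nat.lt_or_ge t' t0 with h | h
      · exact (hA.2.2.2.2.2.1 t' h).le
      · have : t' = t0 := le_antisymm ht't0 h
        rw [this]
    linarith
  · rcases Nat.lt_or_ge t j with htj | htj
    · obtain ⟨t', ht'j, ht't0, rfl⟩ : ∃ t', t' ≤ j ∧ t' ≤ t0 ∧ t = j - t' :=
        ⟨j - t, by omega, by omega, by omega⟩
      rw [ptA hS _ ht'j]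
      have e1 := abs_le.1 (hB.2.2.1 i k le_rfl)
      have e2 := abs_le.1 (hA.2.1 i t' (ht't0.trans ht0))
      rw [abs_le]
      constructor <;> linarith [e1.1, e1.2, e2.1, e2.2]
    · obtain ⟨t'', ht''k, rfl⟩ : ∃ t'', t'' ≤ k ∧ t = j + k - t'' :=
        ⟨j + k - t, by omega, by omega⟩
      rw [ptB hS _ ht''k]
      have e1 := abs_le.1 (hB.2.2.1 i t'' ht''k)
      rw [abs_le]
      constructor <;> linarith [e1.1, e1.2]

end Pool.Agent.Helper54.BW.Geo
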